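import Mathlib
import Pool.Agent.V11180.PartCount2

/-!
# MP_8c5ed8_co: the proportion of partitions of size at most `n` which come from numerical
semigroups tends to `0`
-/

set_option autoImplicit false

open Multiset Filter Topology

namespace Pool.Agent.Results.MP_8c5ed8_co.ProportionTendsToZero

open Pool.Agent.V11180.PartCount

/-- A multiset of natural numbers is the partition attached to a numerical semigroup if there is a
numerical semigroup `S` (a subset of `ℕ` containing `0`, closed under addition, with finite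
complement) such that the multiset consists of the numbers `#{s ∈ S : s < g}`, one for each gap `g`
of `S`. -/
def IsAssociated (μ : Multiset ℕ) : Prop :=
  ∃ (S : Set ℕ) (h : Sᶜ.Finite), 0 ∈ S ∧ (∀ x ∈ S, ∀ y ∈ S, x + y ∈ S) ∧
    μ = h.toFinset.val.map (fun g => {s | s ∈ S ∧ s < g}.ncard)

/-- `P(n)`: the number of partitions of size at most `n`. -/
def numPartitions (n : ℕ) : ℕ := ∑ k ∈ Finset.range (n + 1), Fintype.card (Nat.Partition k)

/-- `S'(n)`: the number of partitions of size at most `n` which are associated to numerical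
semigroups. -/
noncomputable def numSemigroupPartitions (n : ℕ) : ℕ :=
  ∑ k ∈ Finset.range (n + 1), Nat.card {a : Nat.Partition k // IsAssociated a.parts}

/-! ### The count of partitions with at least as many ones as parts in `[2, J]` -/

/-- the partitions of size at most `n` with at least as many ones as parts in `[2, J]` -/
def E (J n : ℕ) : Set (Multiset ℕ) :=
  {μ ∈ Q n | (μ.filter (fun x => 2 ≤ x ∧ x ≤ J)).card ≤ count 1 μ}

lemma decomp (J : ℕ) (hJ : 2 ≤ J) (μ : Multiset ℕ) (h0 : 0 ∉ μ) :
    μ = replicate (count 1 μ) 1 + μ.filter (fun x => 2 ≤ x ∧ x < J) + replicate (count J μ) J +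
      μ.filter (fun x => J < x) := by
  ext x
  rw [count_add, count_add, count_add, count_replicate, count_replicate, count_filter,
    count_filter]
  rcases Nat.eq_zero_or_pos x with rfl | hx
  · rw [count_eq_zero_of_notMem h0]
    simp
    intro h; omega
  · by_cases h1 : x = 1
    · subst h1
      rw [if_pos rfl, if_neg (by omega), if_neg (by omega), if_neg (by omega)]
      ring
    · rw [if_neg (fun h => h1 h.symm)]
      by_cases h2 : x < J
      · rw [if_pos ⟨by omega, h2⟩, if_neg (by omega), if_neg (by omega)]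
        ring
      · by_cases h3 : x = J
        · subst h3
          rw [if_neg (by omega), if_pos rfl, if_neg (by omega)]
          ring
        · rw [if_neg (by omega), if_neg (by omega), if_pos (by omega)]
          ring

lemma card_mid (J : ℕ) (hJ : 2 ≤ J) (μ : Multiset ℕ) :
    (μ.filter (fun x => 2 ≤ x ∧ x ≤ J)).card =
      (μ.filter (fun x => 2 ≤ x ∧ x < J)).card + count J μ := by
  have : μ.filter (fun x => 2 ≤ x ∧ x ≤ J) =
      μ.filter (fun x => 2 ≤ x ∧ x < J) + replicate (count J μ) J := by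
    ext x
    rw [count_add, count_filter, count_filter, count_replicate]
    by_cases h : x = J
    · subst h
      rw [if_pos ⟨hJ, le_rfl⟩, if_neg (by omega), if_pos rfl]
      ring
    · by_cases h2 : 2 ≤ x ∧ x < J
      · rw [if_pos ⟨h2.1, by omega⟩, if_pos h2, if_neg (by omega)]
        ring
      · rw [if_neg (by omega), if_neg h2, if_neg (by omega)]
  rw [this, card_add, card_replicate]

/-- the transformation -/
def tr (J : ℕ) (μ : Multiset ℕ) : Multiset ℕ :=
  replicate (count 1 μ - (μ.filter (fun x => 2 ≤ x ∧ x ≤ J)).card) 1 +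
    (μ.filter (fun x => 2 ≤ x ∧ x < J)).map Nat.succ + μ.filter (fun x => J < x)

lemma E_slice (J n i : ℕ) (hJ : 2 ≤ J) :
    {μ ∈ E J n | count J μ = i}.ncard ≤ b (n - i * (J + 1)) := by
  refine Set.ncard_le_ncard_of_injOn (tr J) ?_ ?_ (sep_finite _ _)
  · rintro μ ⟨⟨⟨h0, hs⟩, hE⟩, hi⟩
    have hdec := decomp J hJ μ h0
    have hsum := congrArg Multiset.sum hdec
    rw [sum_add, sum_add, sum_add, sum_replicate, sum_replicate, smul_eq_mul, smul_eq_mul,
      mul_one] at hsum
    have hmid := card_mid J hJ μ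
    refine ⟨⟨?_, ?_⟩, ?_⟩
    · intro h
      rcases Multiset.mem_add.1 h with h | h
      · rcases Multiset.mem_add.1 h with h | h
        · have := eq_of_mem_replicate h; omega
        · obtain ⟨y, -, hy⟩ := Multiset.mem_map.1 h; omega
      · exact h0 (mem_of_mem_filter h)
    · have h1 : ((μ.filter (fun x => 2 ≤ x ∧ x < J)).map Nat.succ).sum =
          (μ.filter (fun x => 2 ≤ x ∧ x < J)).sum + (μ.filter (fun x => 2 ≤ x ∧ x < J)).card := by
        have : (Nat.succ : ℕ → ℕ) = fun x => x + 1 := rfl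
        rw [this, Multiset.sum_map_add]
        simp
      rw [tr, sum_add, sum_add, sum_replicate, smul_eq_mul, mul_one, h1]
      rw [hi] at hsum hmid
      have h2 : i * (J + 1) = i * J + i := by ring
      omega
    · intro h
      rcases Multiset.mem_add.1 h with h | h
      · rcases Multiset.mem_add.1 h with h | h
        · have := eq_of_mem_replicate h; omega
        · obtain ⟨y, hy, hy'⟩ := Multiset.mem_map.1 h
          have := (Multiset.mem_filter.1 hy).2
          omega
      · have := (Multiset.mem_filter.1 h).2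
        omega
  · rintro μ ⟨⟨⟨h0, hs⟩, hE⟩, hi⟩ ν ⟨⟨⟨h0', hs'⟩, hE'⟩, hi'⟩ he
    have hmid := card_mid J hJ μ
    have hmid' := card_mid J hJ ν
    -- the top part
    have key : ∀ ρ : Multiset ℕ, (tr J ρ).filter (fun x => J < x) = ρ.filter (fun x => J < x) := by
      intro ρ
      ext x
      rw [count_filter, count_filter, tr, count_add, count_add, count_replicate, count_filter]
      by_cases h : J < x
      · rw [if_pos h, if_pos h, if_neg (by omega), zero_add]
        rw [count_eq_zero_of_notMem, zero_add]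
        intro hx
        obtain ⟨y, hy, hy'⟩ := Multiset.mem_map.1 hx
        have := (Multiset.mem_filter.1 hy).2
        omega
      · rw [if_neg h, if_neg h]
    have key2 : ∀ ρ : Multiset ℕ, (tr J ρ).filter (fun x => 2 ≤ x ∧ x ≤ J) =
        (ρ.filter (fun x => 2 ≤ x ∧ x < J)).map Nat.succ := by
      intro ρ
      ext x
      rw [count_filter, tr, count_add, count_add, count_replicate, count_filter]
      by_cases h : 2 ≤ x ∧ x ≤ J
      · rw [if_pos h, if_neg (by omega), if_neg (by omega)]
        ring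
      · rw [if_neg h, eq_comm]
        apply count_eq_zero_of_notMem
        intro hx
        obtain ⟨y, hy, hy'⟩ := Multiset.mem_map.1 hx
        have := (Multiset.mem_filter.1 hy).2
        omega
    have key3 : ∀ ρ : Multiset ℕ, 0 ∉ ρ → count 1 (tr J ρ) =
        count 1 ρ - (ρ.filter (fun x => 2 ≤ x ∧ x ≤ J)).card := by
      intro ρ hρ
      have hz : count 1 ((ρ.filter (fun x => 2 ≤ x ∧ x < J)).map Nat.succ) = 0 := by
        apply count_eq_zero_of_notMem
        intro hx
        obtain ⟨y, hy, hy'⟩ := Multiset.mem_map.1 hx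
        have := (Multiset.mem_filter.1 hy).2
        omega
      rw [tr, count_add, count_add, count_replicate_self, count_filter, if_neg (by omega), hz]
      ring
    have t1 : μ.filter (fun x => J < x) = ν.filter (fun x => J < x) := by
      rw [← key μ, he, key ν]
    have t2 : μ.filter (fun x => 2 ≤ x ∧ x < J) = ν.filter (fun x => 2 ≤ x ∧ x < J) := by
      have h3 : (μ.filter (fun x => 2 ≤ x ∧ x < J)).map Nat.succ =
          (ν.filter (fun x => 2 ≤ x ∧ x < J)).map Nat.succ := by
        rw [← key2 μ, he, key2 ν]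
      exact Multiset.map_injective Nat.succ_injective h3
    have t3 : count 1 μ = count 1 ν := by
      have h3 := key3 μ h0
      rw [he, key3 ν h0'] at h3
      rw [t2] at hmid
      rw [hi] at hmid
      rw [hi'] at hmid'
      omega
    rw [decomp J hJ μ h0, decomp J hJ ν h0', t1, t2, t3, hi, hi']

lemma E_card (J n : ℕ) (hJ : 2 ≤ J) : (J + 1) * (E J n).ncard ≤ 2 * (J + 1) * a n + 2 * P n := by
  have h1 : (E J n).ncard ≤
      ∑ i ∈ Finset.range (n / (J + 1) + 1), {μ ∈ E J n | count J μ = i}.ncard := by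
    have h2 : E J n ⊆ ⋃ i ∈ Finset.range (n / (J + 1) + 1), {μ ∈ E J n | count J μ = i} := by
      intro μ hμ
      have hμ' := hμ
      obtain ⟨⟨h0, hs⟩, hE⟩ := hμ'
      simp only [Set.mem_iUnion]
      refine ⟨count J μ, ?_, hμ, rfl⟩
      rw [Finset.mem_range, Nat.lt_succ_iff, Nat.le_div_iff_mul_le (by omega)]
      have hsum := congrArg Multiset.sum (decomp J hJ μ h0)
      rw [sum_add, sum_add, sum_add, sum_replicate, sum_replicate, smul_eq_mul, smul_eq_mul,
        mul_one] at hsum
      have hmid := card_mid J hJ μ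
      have h3 : count J μ * (J + 1) = count J μ * J + count J μ := by ring
      omega
    refine le_trans (Set.ncard_le_ncard h2 ?_) (Finset.set_ncard_biUnion_le _ _)
    refine Set.Finite.subset (Q_finite n) ?_
    intro μ hμ
    simp only [Set.mem_iUnion] at hμ
    obtain ⟨i, -, hμ, -⟩ := hμ
    exact hμ.1
  have h2 : ∑ i ∈ Finset.range (n / (J + 1) + 1), {μ ∈ E J n | count J μ = i}.ncard ≤
      ∑ i ∈ Finset.range (n / (J + 1) + 1), 2 * a (n - i * (J + 1)) :=
    Finset.sum_le_sum (fun i _ => (E_slice J n i hJ).trans (b_le _))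
  rw [← Finset.mul_sum] at h2
  have h3 := sum_progression J n
  calc (J + 1) * (E J n).ncard
      ≤ (J + 1) * (2 * ∑ i ∈ Finset.range (n / (J + 1) + 1), a (n - i * (J + 1))) :=
        Nat.mul_le_mul_left _ (h1.trans h2)
    _ = 2 * ((J + 1) * ∑ i ∈ Finset.range (n / (J + 1) + 1), a (n - i * (J + 1))) := by ring
    _ ≤ 2 * ((J + 1) * a n + P n) := Nat.mul_le_mul_left _ h3
    _ = _ := by ring

/-- for fixed `k` the relation determines the number of ones -/
lemma rel_card (n k : ℕ) :
    {μ ∈ Q n | ∑ j ∈ Finset.Icc 2 k, (count j μ + 1) = count 1 μ + 1}.ncard ≤ a n := by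
  refine Set.ncard_le_ncard_of_injOn (fun μ => μ.filter (fun x => ¬ 1 = x)) ?_ ?_ (sep_finite _ _)
  · rintro μ ⟨⟨h0, hs⟩, -⟩
    refine ⟨⟨fun h => h0 (mem_of_mem_filter h), ?_⟩, ?_⟩
    · have h1 := congrArg Multiset.sum (Multiset.filter_add_not (fun x => 1 = x) μ)
      rw [sum_add] at h1
      show (μ.filter (fun x => ¬ 1 = x)).sum ≤ n
      omega
    · intro h
      exact (Multiset.mem_filter.1 h).2 rfl
  · rintro μ ⟨-, h1⟩ ν ⟨-, h2⟩ he
    simp only at he
    have h3 : ∀ j, 2 ≤ j → count j μ = count j ν := by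
      intro j hj
      have h4 := congrArg (count j) he
      rw [count_filter, count_filter, if_pos (by omega), if_pos (by omega)] at h4
      exact h4
    have h5 : count 1 μ = count 1 ν := by
      have h6 : ∑ j ∈ Finset.Icc 2 k, (count j μ + 1) = ∑ j ∈ Finset.Icc 2 k, (count j ν + 1) := by
        apply Finset.sum_congr rfl
        intro j hj
        rw [h3 j (Finset.mem_Icc.1 hj).1]
      omega
    rw [← Multiset.filter_add_not (fun x => 1 = x) μ, ← Multiset.filter_add_not (fun x => 1 = x) ν,
      Multiset.filter_eq, Multiset.filter_eq, h5, he]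

lemma card_filter_eq (J : ℕ) (μ : Multiset ℕ) :
    (μ.filter (fun x => 2 ≤ x ∧ x ≤ J)).card = ∑ j ∈ Finset.Icc 2 J, count j μ := by
  classical
  induction μ using Multiset.induction_on with
  | empty => simp
  | cons y μ ih =>
    rw [Multiset.filter_cons, card_add, ih]
    have h1 : ∑ j ∈ Finset.Icc 2 J, count j (y ::ₘ μ) =
        (∑ j ∈ Finset.Icc 2 J, count j μ) + ∑ j ∈ Finset.Icc 2 J, (if j = y then 1 else 0) := by
      rw [← Finset.sum_add_distrib]
      apply Finset.sum_congr rfl
      intro j _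
      rw [count_cons]
    rw [h1, Finset.sum_ite_eq']
    by_cases h : 2 ≤ y ∧ y ≤ J
    · rw [if_pos h, if_pos (Finset.mem_Icc.2 h)]
      simp [add_comm]
    · rw [if_neg h, if_neg (fun h' => h (Finset.mem_Icc.1 h'))]
      simp

/-! ### Numerical semigroups -/

/-- An element `x` of the numerical set `S` is the sum of the number `c` of smaller elements of `S`
and of the multiplicities of the parts `1, ..., c`. -/
lemma elem_formula (S : Set ℕ) (h : Sᶜ.Finite) (x : ℕ) (hx : x ∈ S) :
    x = {s | s ∈ S ∧ s < x}.ncard + ∑ j ∈ Finset.Icc 0 ({s | s ∈ S ∧ s < x}.ncard),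
      count j (h.toFinset.val.map (fun g => {s | s ∈ S ∧ s < g}.ncard)) := by
  classical
  have hfin : ∀ y, {s | s ∈ S ∧ s < y}.Finite := fun y =>
    (Set.finite_lt_nat y).subset (fun s hs => hs.2)
  have hmono : ∀ g, g ∉ S → (({s | s ∈ S ∧ s < g}.ncard ≤ {s | s ∈ S ∧ s < x}.ncard) ↔ g < x) := by
    intro g hg
    constructor
    · intro hle
      by_contra hlt
      have hne : g ≠ x := fun he => hg (he ▸ hx)
      have h1 : insert x {s | s ∈ S ∧ s < x} ⊆ {s | s ∈ S ∧ s < g} := by
        intro s hs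
        rcases hs with rfl | hs
        · exact ⟨hx, by omega⟩
        · exact ⟨hs.1, by have := hs.2; omega⟩
      have h2 := Set.ncard_le_ncard h1 (hfin g)
      rw [Set.ncard_insert_of_notMem (fun hs => lt_irrefl _ hs.2) (hfin x)] at h2
      omega
    · intro hlt
      apply Set.ncard_le_ncard _ (hfin x)
      intro s hs
      exact ⟨hs.1, lt_trans hs.2 hlt⟩
  have h1 : ∑ j ∈ Finset.Icc 0 ({s | s ∈ S ∧ s < x}.ncard),
      count j (h.toFinset.val.map (fun g => {s | s ∈ S ∧ s < g}.ncard)) =
      {s | s ∉ S ∧ s < x}.ncard := by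
    have h2 : {s | s ∉ S ∧ s < x} = ((h.toFinset.filter (fun g => {s | s ∈ S ∧ s < g}.ncard ≤
        {s | s ∈ S ∧ s < x}.ncard) : Finset ℕ) : Set ℕ) := by
      ext g
      simp only [Set.mem_ofPred_eq, Finset.coe_filter, Set.Finite.mem_toFinset, Set.mem_compl_iff]
      constructor
      · rintro ⟨h3, h4⟩
        exact ⟨h3, (hmono g h3).2 h4⟩
      · rintro ⟨h3, h4⟩
        exact ⟨h3, (hmono g h3).1 h4⟩
    rw [h2, Set.ncard_coe_finset]
    have h3 : ∀ j, count j (h.toFinset.val.map (fun g => {s | s ∈ S ∧ s < g}.ncard)) =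
        (h.toFinset.filter (fun g => j = {s | s ∈ S ∧ s < g}.ncard)).card := by
      intro j
      rw [Multiset.count_map]
      rfl
    simp only [h3]
    rw [← Finset.card_biUnion]
    · congr 1
      ext g
      simp only [Finset.mem_biUnion, Finset.mem_Icc, Finset.mem_filter]
      constructor
      · rintro ⟨j, ⟨-, hj⟩, hg, rfl⟩
        exact ⟨hg, hj⟩
      · rintro ⟨hg, hj⟩
        exact ⟨_, ⟨Nat.zero_le _, hj⟩, hg, rfl⟩
    · intro i _ j _ hij
      rw [Function.onFun, Finset.disjoint_left]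
      intro g hg hg'
      rw [Finset.mem_filter] at hg hg'
      exact hij (hg.2.trans hg'.2.symm)
  rw [h1]
  have h4 : {s | s ∈ S ∧ s < x} ∪ {s | s ∉ S ∧ s < x} = ((Finset.range x : Finset ℕ) : Set ℕ) := by
    ext s
    simp only [Set.mem_union, Set.mem_ofPred_eq, Finset.coe_range, Set.mem_Iio]
    tauto
  have h5 := Set.ncard_union_eq (s := {s | s ∈ S ∧ s < x}) (t := {s | s ∉ S ∧ s < x})
    (by
      rw [Set.disjoint_left]
      rintro s ⟨h6, -⟩ ⟨h7, -⟩
      exact h7 h6) (hfin x) ((Set.finite_lt_nat x).subset (fun s hs => hs.2))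
  rw [h4, Set.ncard_coe_finset, Finset.card_range] at h5
  exact h5

/-- the linear relation between the multiplicities in a partition coming from a semigroup -/
lemma relation {μ : Multiset ℕ} (hμ : IsAssociated μ) :
    ∃ k, 2 ≤ k ∧ ∑ j ∈ Finset.Icc 2 k, (count j μ + 1) = count 1 μ + 1 := by
  obtain ⟨S, h, h0, hadd, rfl⟩ := hμ
  set f : ℕ → ℕ := fun j => count j (h.toFinset.val.map (fun g => {s | s ∈ S ∧ s < g}.ncard))
    with hf
  have hfin : ∀ y, {s | s ∈ S ∧ s < y}.Finite := fun y =>
    (Set.finite_lt_nat y).subset (fun s hs => hs.2)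
  -- no part is zero
  have hf0 : f 0 = 0 := by
    apply count_eq_zero_of_notMem
    intro hm
    obtain ⟨g, hg, hg'⟩ := Multiset.mem_map.1 hm
    have hgS : g ∉ S := by
      have : g ∈ h.toFinset := hg
      rw [Set.Finite.mem_toFinset] at this
      exact this
    have hgpos : 0 < g := Nat.pos_of_ne_zero (fun he => hgS (he ▸ h0))
    rw [Set.ncard_eq_zero (hfin g)] at hg'
    have : (0 : ℕ) ∈ {s | s ∈ S ∧ s < g} := ⟨h0, hgpos⟩
    rw [hg'] at this
    exact this
  -- multiplicity
  have hex : ∃ m, m ∈ S ∧ 0 < m := by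
    obtain ⟨M, hM⟩ := h.bddAbove
    refine ⟨M + 1, ?_, by omega⟩
    by_contra hcon
    have := hM hcon
    omega
  classical
  obtain ⟨hmS, hmpos⟩ := Nat.find_spec hex
  set m := Nat.find hex
  have hmin : ∀ s ∈ S, 0 < s → m ≤ s := fun s hs hs' => Nat.find_min' hex ⟨hs, hs'⟩
  have hcm : {s | s ∈ S ∧ s < m}.ncard = 1 := by
    have : {s | s ∈ S ∧ s < m} = {0} := by
      ext s
      simp only [Set.mem_ofPred_eq, Set.mem_singleton_iff]
      constructor
      · rintro ⟨h1, h2⟩
        by_contra h3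
        have := hmin s h1 (Nat.pos_of_ne_zero h3)
        omega
      · rintro rfl
        exact ⟨h0, hmpos⟩
    rw [this, Set.ncard_singleton]
  have e1 := elem_formula S h m hmS
  rw [hcm] at e1
  have e2 := elem_formula S h (m + m) (hadd m hmS m hmS)
  set k := {s | s ∈ S ∧ s < m + m}.ncard with hk
  have hk2 : 2 ≤ k := by
    have h1 : ({0, m} : Set ℕ) ⊆ {s | s ∈ S ∧ s < m + m} := by
      intro s hs
      rcases hs with rfl | hs
      · exact ⟨h0, by omega⟩
      · rw [Set.mem_singleton_iff] at hs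
        subst hs
        exact ⟨hmS, by omega⟩
    have h2 := Set.ncard_le_ncard h1 (hfin _)
    rw [Set.ncard_pair (by omega)] at h2
    exact h2
  refine ⟨k, hk2, ?_⟩
  show ∑ j ∈ Finset.Icc 2 k, (f j + 1) = f 1 + 1
  have e1' : m = 1 + f 1 := by
    have : Finset.Icc 0 1 = {0, 1} := by decide
    rw [this, Finset.sum_pair (by norm_num)] at e1
    change m = 1 + (f 0 + f 1) at e1
    omega
  have e2' : m + m = k + ∑ j ∈ Finset.Icc 0 k, f j := e2
  have e3 : ∑ j ∈ Finset.Icc 0 k, f j = f 0 + (f 1 + ∑ j ∈ Finset.Icc 2 k, f j) := by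
    rw [← Finset.add_sum_Ioc_eq_sum_Icc (by omega : 0 ≤ k)]
    congr 1
    have : Finset.Ioc 0 k = Finset.Icc 1 k := by ext; simp [Finset.mem_Ioc, Finset.mem_Icc]; omega
    rw [this, ← Finset.add_sum_Ioc_eq_sum_Icc (by omega : 1 ≤ k)]
    congr 1
  have e4 : ∑ j ∈ Finset.Icc 2 k, (f j + 1) = ∑ j ∈ Finset.Icc 2 k, f j + (k - 1) := by
    rw [Finset.sum_add_distrib, Finset.sum_const, smul_eq_mul, mul_one, Nat.card_Icc]
    omega
  omega

/-- the main estimate -/
lemma main_bound (J n : ℕ) (hJ : 2 ≤ J) :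
    (J + 1) * {μ ∈ Q n | IsAssociated μ}.ncard ≤ (J + 1) * ((J + 3) * a n) + 2 * P n := by
  have h1 : {μ ∈ Q n | IsAssociated μ} ⊆
      (⋃ k ∈ Finset.range (J + 1),
        {μ ∈ Q n | ∑ j ∈ Finset.Icc 2 k, (count j μ + 1) = count 1 μ + 1}) ∪ E J n := by
    rintro μ ⟨hμ, hA⟩
    obtain ⟨k, hk2, hk⟩ := relation hA
    by_cases hkJ : k ≤ J
    · left
      simp only [Set.mem_iUnion]
      exact ⟨k, Finset.mem_range.2 (by omega), hμ, hk⟩
    · right
      refine ⟨hμ, ?_⟩
      rw [card_filter_eq]
      have h2 : ∑ j ∈ Finset.Icc 2 J, (count j μ + 1) ≤ ∑ j ∈ Finset.Icc 2 k, (count j μ + 1) :=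
        Finset.sum_le_sum_of_subset (Finset.Icc_subset_Icc le_rfl (by omega))
      rw [Finset.sum_add_distrib, Finset.sum_const, smul_eq_mul, mul_one, Nat.card_Icc] at h2
      omega
  have h2 : {μ ∈ Q n | IsAssociated μ}.ncard ≤ (J + 1) * a n + (E J n).ncard := by
    refine (Set.ncard_le_ncard h1 ?_).trans ((Set.ncard_union_le _ _).trans ?_)
    · apply (Q_finite n).subset
      rintro μ (hμ | hμ)
      · simp only [Set.mem_iUnion] at hμ
        obtain ⟨k, -, hμ, -⟩ := hμ
        exact hμ
      · exact hμ.1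
    · apply Nat.add_le_add_right
      refine (Finset.set_ncard_biUnion_le _ _).trans ?_
      calc _ ≤ ∑ k ∈ Finset.range (J + 1), a n := Finset.sum_le_sum (fun k _ => rel_card n k)
        _ = (J + 1) * a n := by simp
  have h3 := E_card J n hJ
  nlinarith

/-- **The proportion of partitions coming from numerical semigroups tends to zero.** -/
theorem result : Tendsto (fun n : ℕ => (numSemigroupPartitions n : ℝ) / (numPartitions n : ℝ))
    atTop (𝓝 0) := by
  have hP : ∀ n, numPartitions n = P n := fun n => (Q_ncard n).symm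
  have hS : ∀ n, numSemigroupPartitions n = {μ ∈ Q n | IsAssociated μ}.ncard :=
    fun n => (Q_sep_ncard n IsAssociated).symm
  simp only [hP, hS]
  rw [Metric.tendsto_atTop]
  intro ε hε
  obtain ⟨J, hJ⟩ := exists_nat_gt (4 / ε + 2)
  have h4e : 0 < 4 / ε := by positivity
  have hJ2 : 2 ≤ J := by
    have : (2 : ℝ) < J := by linarith
    exact_mod_cast this.le
  have h1 := a_div_P
  rw [Metric.tendsto_atTop] at h1
  have hc : 0 < ε / (2 * (J + 3 : ℝ)) := by positivity
  obtain ⟨N, hN⟩ := h1 _ hc
  refine ⟨N, fun n hn => ?_⟩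
  have h2 := hN n hn
  have hPp : (0 : ℝ) < P n := by exact_mod_cast P_pos n
  rw [Real.dist_eq, sub_zero, abs_of_nonneg (by positivity)] at h2 ⊢
  have h3 : ((J : ℝ) + 1) * ({μ ∈ Q n | IsAssociated μ}.ncard : ℝ) ≤
      (J + 1) * ((J + 3) * a n) + 2 * P n := by exact_mod_cast main_bound J n hJ2
  have hJ1 : (0 : ℝ) < (J : ℝ) + 1 := by positivity
  have h5 : ((J : ℝ) + 3) * a n < ε / 2 * P n := by
    rw [div_lt_iff₀ hPp] at h2
    have h6 : ((J : ℝ) + 3) * a n < (J + 3) * (ε / (2 * (J + 3 : ℝ)) * P n) :=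
      mul_lt_mul_of_pos_left h2 (by positivity)
    have h7 : ((J : ℝ) + 3) * (ε / (2 * (J + 3 : ℝ)) * P n) = ε / 2 * P n := by
      field_simp
    linarith
  have h6 : 2 * (P n : ℝ) < ((J : ℝ) + 1) * (ε / 2 * P n) := by
    have h7 : 4 < ε * ((J : ℝ) + 1) := by
      have : 4 / ε < (J : ℝ) + 1 := by linarith
      rw [div_lt_iff₀ hε] at this
      linarith
    nlinarith
  rw [div_lt_iff₀ hPp]
  have h8 : ((J : ℝ) + 1) * ({μ ∈ Q n | IsAssociated μ}.ncard : ℝ) <
      ((J : ℝ) + 1) * (ε * P n) := by nlinarith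
  exact lt_of_mul_lt_mul_left h8 hJ1.le

end Pool.Agent.Results.MP_8c5ed8_co.ProportionTendsToZero
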